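import Pool.Agent.Lib.MP_5349a4_pr.M.Base
import Pool.Agent.Lib.MP_5349a4_pr.M.Iface1

/-!
# Tuples: the integral over the Poisson law, tuples with distinct entries
-/

set_option autoImplicit false
open MeasureTheory Set
open scoped ENNReal NNReal

namespace Pool.Agent.Lib.MP_5349a4_pr.H38

section

variable {E : Type} [MeasurableSpace E]

theorem emb_mk (k : ℕ) : MeasurableEmbedding (fun x : Fin k → E => (⟨k, x⟩ : Cfg E)) where
  injective := by
    intro x y h
    simpa using h
  measurable := measurable_mk k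
  measurableSet_image' := by
    intro s hs
    rw [measurableSet_cfg]
    intro j
    by_cases hj : j = k
    · subst hj
      convert hs using 1
      ext x
      simp
    · convert MeasurableSet.empty using 1
      ext x
      simp only [Set.mem_ofPred_eq, Set.mem_image, Set.mem_empty_iff_false, iff_false]
      rintro ⟨y, _, hy⟩
      exact hj (congrArg Sigma.fst hy).symm

/-- weight of the tuples of length `k` -/
noncomputable def wk (ρ : Measure E) (k : ℕ) : ℝ≥0∞ :=
  ENNReal.ofReal (Real.exp (-(ρ univ).toReal)) / (k.factorial : ℝ≥0∞)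

theorem lintegral_PL (ρ : Measure E) (F : Cfg E → ℝ≥0∞) :
    ∫⁻ ω, F ω ∂PL ρ = ∑' k : ℕ, wk ρ k * ∫⁻ x, F ⟨k, x⟩ ∂(Measure.pi fun _ : Fin k => ρ) := by
  unfold PL
  rw [lintegral_sum_measure]
  refine tsum_congr fun k => ?_
  rw [lintegral_smul_measure, smul_eq_mul]
  exact congrArg (fun t => wk ρ k * t) ((emb_mk k).lintegral_map F)

theorem wk_succ (ρ : Measure E) (k : ℕ) : wk ρ (k + 1) * ((k + 1 : ℕ) : ℝ≥0∞) = wk ρ k := by
  unfold wk
  rw [Nat.factorial_succ, Nat.cast_mul, ENNReal.div_eq_inv_mul, ENNReal.div_eq_inv_mul,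
    ENNReal.mul_inv (Or.inr (ENNReal.natCast_ne_top _)) (Or.inl (ENNReal.natCast_ne_top _))]
  have h0 : ((k + 1 : ℕ) : ℝ≥0∞) ≠ 0 := by simp
  have h1 : ((k + 1 : ℕ) : ℝ≥0∞) ≠ ∞ := ENNReal.natCast_ne_top _
  calc ((k + 1 : ℕ) : ℝ≥0∞)⁻¹ * (k.factorial : ℝ≥0∞)⁻¹ *
        ENNReal.ofReal (Real.exp (-(ρ univ).toReal)) * ((k + 1 : ℕ) : ℝ≥0∞)
      = (((k + 1 : ℕ) : ℝ≥0∞)⁻¹ * ((k + 1 : ℕ) : ℝ≥0∞)) * ((k.factorial : ℝ≥0∞)⁻¹ *
        ENNReal.ofReal (Real.exp (-(ρ univ).toReal))) := by ring
    _ = _ := by rw [ENNReal.inv_mul_cancel h0 h1, one_mul]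

/-- split off the `i`-th entry -/
theorem lintegral_split (ρ : Measure E) [IsFiniteMeasure ρ] {n : ℕ} (i : Fin (n + 1))
    (h : E × (Fin n → E) → ℝ≥0∞) (hh : Measurable h) :
    ∫⁻ x, h (x i, i.removeNth x) ∂(Measure.pi fun _ : Fin (n + 1) => ρ) =
      ∫⁻ y, ∫⁻ z, h (y, z) ∂(Measure.pi fun _ : Fin n => ρ) ∂ρ := by
  have h1 := measurePreserving_piFinSuccAbove (fun _ : Fin (n + 1) => ρ) i
  rw [← lintegral_prod _ hh.aemeasurable, ← h1.lintegral_comp hh]
  rfl

theorem ae_injective [StandardBorelSpace E] (ρ : Measure E) [IsFiniteMeasure ρ]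
    [NullSingletonClass ρ] (k : ℕ) :
    ∀ᵐ x ∂(Measure.pi fun _ : Fin k => ρ), Function.Injective x := by
  have h1 : ∀ i j : Fin k, i ≠ j → ∀ᵐ x ∂(Measure.pi fun _ : Fin k => ρ), x i ≠ x j := by
    intro i j hij
    obtain ⟨n, rfl⟩ : ∃ n, k = n + 1 := ⟨k - 1, by have := i.2; omega⟩
    obtain ⟨j', rfl⟩ := Fin.exists_succAbove_eq hij.symm
    rw [ae_iff]
    have hS : MeasurableSet {q : E × (Fin n → E) | q.1 = q.2 j'} :=
      measurableSet_eq_fun measurable_fst ((measurable_pi_apply j').comp measurable_snd)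
    have h2 := lintegral_split ρ i (fun q => ind (q.1 = q.2 j')) (measurable_ind hS)
    have hm : Measurable (fun x : Fin (n + 1) → E => x i) := measurable_pi_apply i
    have hm' : Measurable (fun x : Fin (n + 1) → E => x (i.succAbove j')) := measurable_pi_apply _
    rw [show (fun x : Fin (n + 1) → E => ind ((x i, i.removeNth x).1 = (x i, i.removeNth x).2 j')) =
      fun x => ind (x i = x (i.succAbove j')) from rfl,
      lintegral_ind (measurableSet_eq_fun hm hm')] at h2
    simp only [ne_eq, not_not]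
    rw [h2]
    have hS' : Measurable (fun q : (Fin n → E) × E => ind (q.2 = q.1 j')) :=
      measurable_ind (measurableSet_eq_fun measurable_snd ((measurable_pi_apply j').comp measurable_fst))
    rw [lintegral_lintegral_swap (measurable_ind hS).aemeasurable]
    have h3 : ∀ z : Fin n → E, ∫⁻ y, ind (y = z j') ∂ρ = 0 := by
      intro z
      have h4 : MeasurableSet {y : E | y = z j'} := measurableSet_singleton (z j')
      rw [lintegral_ind h4]
      exact measure_singleton (z j')
    simp only [h3, lintegral_zero]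
  have h2 : ∀ᵐ x ∂(Measure.pi fun _ : Fin k => ρ), ∀ i j : Fin k, i ≠ j → x i ≠ x j := by
    rw [ae_all_iff]
    intro i
    rw [ae_all_iff]
    intro j
    by_cases hij : i = j
    · exact Filter.Eventually.of_forall fun x h => absurd hij h
    · filter_upwards [h1 i j hij] with x hx _
      exact hx
  filter_upwards [h2] with x hx i j hij
  by_contra hne
  exact hx i j hne hij

/-- measurability on products with the sample space -/
theorem measurable_prod_cfg {T β : Type*} [MeasurableSpace T] [MeasurableSpace β]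
    {f : T × Cfg E → β} (h : ∀ k, Measurable fun q : T × (Fin k → E) => f (q.1, ⟨k, q.2⟩)) :
    Measurable f := by
  intro s hs
  have h1 : f ⁻¹' s = ⋃ k : ℕ, (Prod.map id (fun x : Fin k → E => (⟨k, x⟩ : Cfg E))) ''
      ((fun q : T × (Fin k → E) => f (q.1, ⟨k, q.2⟩)) ⁻¹' s) := by
    ext ⟨t, k, x⟩
    simp only [Set.mem_preimage, Set.mem_iUnion, Set.mem_image, Prod.exists, Prod.map_apply, id_eq]
    constructor
    · intro h2
      exact ⟨k, t, x, h2, rfl⟩
    · rintro ⟨k', t', x', h2, h3⟩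
      rw [← h3]
      exact h2
  rw [h1]
  refine MeasurableSet.iUnion fun k => ?_
  exact (MeasurableEmbedding.id.prodMap (emb_mk k)).measurableSet_image.mpr (h k hs)

omit [MeasurableSpace E] in
/-- sum over the points of an injective tuple -/
theorem tsum_range {ι : Type} [Fintype ι] (x : ι → E) (hx : Function.Injective x)
    (f : E → ℝ≥0∞) : ∑' p : (Set.range x : Set E), f p = ∑ i, f (x i) := by
  rw [← (Equiv.ofInjective x hx).tsum_eq (fun p : Set.range x => f p), tsum_fintype]
  rfl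

end

end Pool.Agent.Lib.MP_5349a4_pr.H38
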