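import Pool.Agent.Lib.MP_5349a4_pr.M.H38.Tuple

/-!
# Module MECKE
-/

set_option autoImplicit false
open MeasureTheory Set
open scoped ENNReal NNReal

namespace Pool.Agent.Lib.MP_5349a4_pr.H38

section

variable {E : Type} [MeasurableSpace E] [StandardBorelSpace E]

theorem mecke_aux (ρ : Measure E) [IsFiniteMeasure ρ] [NullSingletonClass ρ]
    (G : E → Set E → ℝ≥0∞) (H : E → Cfg E → ℝ≥0∞) (hH : Measurable fun q : E × Cfg E => H q.1 q.2)
    (hGH : ∀ (n : ℕ) (x : Fin (n + 1) → E) (i : Fin (n + 1)), Function.Injective x →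
      G (x i) (Set.range x) = H (x i) ⟨n, i.removeNth x⟩) :
    ∫⁻ ω, ∑' p : (pt ω : Set E), G p (pt ω) ∂PL ρ = ∫⁻ x, ∫⁻ ω, H x ω ∂PL ρ ∂ρ := by
  have hHn : ∀ n : ℕ, Measurable fun q : E × (Fin n → E) => H q.1 ⟨n, q.2⟩ := fun n =>
    hH.comp (measurable_fst.prodMk ((measurable_mk n).comp measurable_snd))
  have hr : ∫⁻ x, ∫⁻ ω, H x ω ∂PL ρ ∂ρ = ∑' n : ℕ, wk ρ n *
      ∫⁻ x, ∫⁻ z, H x ⟨n, z⟩ ∂(Measure.pi fun _ : Fin n => ρ) ∂ρ := by
    simp only [lintegral_PL]
    rw [lintegral_tsum fun n => ((hHn n).lintegral_prod_right'.const_mul _).aemeasurable]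
    refine tsum_congr fun n => ?_
    rw [lintegral_const_mul _ (hHn n).lintegral_prod_right']
  rw [hr, lintegral_PL, tsum_eq_zero_add' ENNReal.summable]
  have h0 : ∫⁻ x : Fin 0 → E, ∑' p : (pt (⟨0, x⟩ : Cfg E) : Set E), G p (pt ⟨0, x⟩)
      ∂(Measure.pi fun _ : Fin 0 => ρ) = 0 := by
    have h1 : ∀ x : Fin 0 → E, ∑' p : (pt (⟨0, x⟩ : Cfg E) : Set E), G p (pt ⟨0, x⟩) = 0 := by
      intro x
      have : IsEmpty (pt (⟨0, x⟩ : Cfg E) : Set E) := by
        constructor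
        rintro ⟨p, i, _⟩
        exact i.elim0
      exact tsum_empty
    simp only [h1, lintegral_zero]
  rw [h0, mul_zero, zero_add]
  refine tsum_congr fun n => ?_
  have h2 : ∫⁻ x : Fin (n + 1) → E, ∑' p : (pt (⟨n + 1, x⟩ : Cfg E) : Set E), G p (pt ⟨n + 1, x⟩)
      ∂(Measure.pi fun _ : Fin (n + 1) => ρ) =
      ∫⁻ x : Fin (n + 1) → E, ∑ i, H (x i) ⟨n, i.removeNth x⟩
        ∂(Measure.pi fun _ : Fin (n + 1) => ρ) := by
    refine lintegral_congr_ae ?_
    filter_upwards [ae_injective ρ (n + 1)] with x hx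
    have h3 : ∑' p : (pt (⟨n + 1, x⟩ : Cfg E) : Set E), G p (pt ⟨n + 1, x⟩) =
      ∑ i, G (x i) (Set.range x) := tsum_range x hx (fun p => G p (Set.range x))
    rw [h3]
    exact Finset.sum_congr rfl fun i _ => hGH n x i hx
  have h4 : ∀ i : Fin (n + 1), Measurable fun x : Fin (n + 1) → E => H (x i) ⟨n, i.removeNth x⟩ :=
    fun i => (hHn n).comp (measurePreserving_piFinSuccAbove (fun _ : Fin (n + 1) => ρ) i).measurable
  rw [h2, lintegral_finsetSum _ fun i _ => h4 i]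
  have h5 : ∀ i : Fin (n + 1), ∫⁻ x : Fin (n + 1) → E, H (x i) ⟨n, i.removeNth x⟩
      ∂(Measure.pi fun _ : Fin (n + 1) => ρ) =
      ∫⁻ x, ∫⁻ z, H x ⟨n, z⟩ ∂(Measure.pi fun _ : Fin n => ρ) ∂ρ := fun i =>
    lintegral_split ρ i (fun q => H q.1 ⟨n, q.2⟩) (hHn n)
  simp only [h5]
  rw [Finset.sum_const, Finset.card_univ, Fintype.card_fin, nsmul_eq_mul, ← mul_assoc, wk_succ]

end

/-- Module MECKE. -/
theorem mecke : MeckeStatement := by
  intro E _ _ ρ _ _ g hg
  constructor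
  · have hcons : Measurable fun q : E × Cfg E => (q.1, (⟨q.2.1 + 1, Fin.cons q.1 q.2.2⟩ : Cfg E)) := by
      refine measurable_fst.prodMk (measurable_prod_cfg fun k => ?_)
      refine (measurable_mk (k + 1)).comp (measurable_pi_iff.mpr fun i => ?_)
      refine Fin.cases ?_ (fun j => ?_) i
      · exact measurable_fst
      · exact (measurable_pi_apply j).comp measurable_snd
    refine mecke_aux ρ g (fun x ω => g x (insert x (pt ω))) ?_ ?_
    · have h1 := hg.comp hcons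
      have h2 : ((fun q : E × Cfg E => g q.1 (pt q.2)) ∘
          fun q : E × Cfg E => (q.1, (⟨q.2.1 + 1, Fin.cons q.1 q.2.2⟩ : Cfg E))) =
          fun q : E × Cfg E => g q.1 (insert q.1 (pt q.2)) := by
        funext q
        show g q.1 (Set.range (Fin.cons q.1 q.2.2 : Fin (q.2.1 + 1) → E)) = _
        rw [Fin.range_cons]
        rfl
      rw [← h2]
      exact h1
    · intro n x i hx
      show g (x i) (Set.range x) = g (x i) (insert (x i) (Set.range (i.removeNth x)))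
      congr 1
      have h3 := Fin.insertNth_self_removeNth i x
      conv_lhs => rw [← h3]
      rw [Fin.range_insertNth]
      rfl
  · refine mecke_aux ρ (fun p P => g p (P \ {p})) (fun x ω => g x (pt ω)) hg ?_
    intro n x i hx
    show g (x i) (Set.range x \ {x i}) = g (x i) (Set.range (i.removeNth x))
    congr 1
    ext y
    simp only [Set.mem_sdiff, Set.mem_range, Set.mem_singleton_iff, Fin.removeNth]
    constructor
    · rintro ⟨⟨j, rfl⟩, hne⟩
      have hij : j ≠ i := fun h => hne (h ▸ rfl)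
      obtain ⟨j', rfl⟩ := Fin.exists_succAbove_eq hij
      exact ⟨j', rfl⟩
    · rintro ⟨j', rfl⟩
      exact ⟨⟨_, rfl⟩, fun h => Fin.succAbove_ne i j' (hx h)⟩

end Pool.Agent.Lib.MP_5349a4_pr.H38
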