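import Pool.Agent.Lib.MP_5349a4_pr.M.H38.Tuple

/-!
# Module SUBS
-/

set_option autoImplicit false
open MeasureTheory Set
open scoped ENNReal NNReal

namespace Pool.Agent.Lib.MP_5349a4_pr.H38

section

variable {E : Type} [MeasurableSpace E]

theorem lintegral_reindex (ρ : Measure E) [IsFiniteMeasure ρ] {α β : Type} [Fintype α] [Fintype β]
    (e : α ≃ β) (F : (α → E) → ℝ≥0∞) :
    ∫⁻ x, F (fun a => x (e a)) ∂(Measure.pi fun _ : β => ρ) =
      ∫⁻ y, F y ∂(Measure.pi fun _ : α => ρ) := by
  have h1 := measurePreserving_piCongrLeft (fun _ : β => ρ) e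
  have h2 := h1.lintegral_comp_emb (MeasurableEquiv.measurableEmbedding _)
    (fun x => F (fun a => x (e a)))
  rw [← h2]
  refine lintegral_congr fun y => ?_
  congr 1
  funext a
  exact Equiv.piCongrLeft_apply_apply (fun _ : β => E) e y a

/-- the integral over a pair of tuples -/
noncomputable def aa (ρ : Measure E) (g : Set E → Set E → ℝ≥0∞) (j l : ℕ) : ℝ≥0∞ :=
  ∫⁻ y, ∫⁻ z, g (Set.range y) (Set.range z) ∂(Measure.pi fun _ : Fin l => ρ)
    ∂(Measure.pi fun _ : Fin j => ρ)

omit [MeasurableSpace E] in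
theorem range_comp_equiv {α β : Type} (e : α ≃ β) (x : β → E) :
    Set.range (fun a => x (e a)) = Set.range x := by
  ext p
  constructor
  · rintro ⟨a, rfl⟩
    exact ⟨e a, rfl⟩
  · rintro ⟨b, rfl⟩
    exact ⟨e.symm b, by simp⟩

theorem lintegral_range (ρ : Measure E) [IsFiniteMeasure ρ] {α : Type} [Fintype α]
    (f : Set E → ℝ≥0∞) {j : ℕ} (hj : Fintype.card α = j) :
    ∫⁻ y, f (Set.range y) ∂(Measure.pi fun _ : α => ρ) =
      ∫⁻ y, f (Set.range y) ∂(Measure.pi fun _ : Fin j => ρ) := by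
  have h1 := lintegral_reindex ρ (Fintype.equivFinOfCardEq hj).symm (fun y => f (Set.range y))
  rw [← h1]
  refine lintegral_congr fun y => ?_
  rw [range_comp_equiv]

theorem aa_types (ρ : Measure E) [IsFiniteMeasure ρ] (g : Set E → Set E → ℝ≥0∞)
    {α β : Type} [Fintype α] [Fintype β] {j l : ℕ} (hj : Fintype.card α = j)
    (hl : Fintype.card β = l) :
    ∫⁻ y, ∫⁻ z, g (Set.range y) (Set.range z) ∂(Measure.pi fun _ : β => ρ)
      ∂(Measure.pi fun _ : α => ρ) = aa ρ g j l := by
  unfold aa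
  rw [← lintegral_range ρ (fun S => ∫⁻ z, g S (Set.range z) ∂(Measure.pi fun _ : Fin l => ρ)) hj]
  refine lintegral_congr fun y => ?_
  exact lintegral_range ρ (fun S => g (Set.range y) S) hl

/-- joint measurability on tuples indexed by arbitrary finite types -/
theorem meas_types {g : Set E → Set E → ℝ≥0∞}
    (hg : Measurable fun q : Cfg E × Cfg E => g (pt q.1) (pt q.2))
    {α β : Type} [Fintype α] [Fintype β] :
    Measurable fun q : (α → E) × (β → E) => g (Set.range q.1) (Set.range q.2) := by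
  have h1 : Measurable fun q : (α → E) × (β → E) =>
      ((⟨Fintype.card α, fun a => q.1 ((Fintype.equivFin α).symm a)⟩ : Cfg E),
        (⟨Fintype.card β, fun a => q.2 ((Fintype.equivFin β).symm a)⟩ : Cfg E)) := by
    refine Measurable.prodMk ?_ ?_
    · refine (measurable_mk _).comp (measurable_pi_iff.mpr fun i => ?_)
      exact (measurable_pi_apply _).comp measurable_fst
    · refine (measurable_mk _).comp (measurable_pi_iff.mpr fun i => ?_)
      exact (measurable_pi_apply _).comp measurable_snd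
  have h2 := hg.comp h1
  have h3 : ((fun q : Cfg E × Cfg E => g (pt q.1) (pt q.2)) ∘
      fun q : (α → E) × (β → E) =>
      ((⟨Fintype.card α, fun a => q.1 ((Fintype.equivFin α).symm a)⟩ : Cfg E),
        (⟨Fintype.card β, fun a => q.2 ((Fintype.equivFin β).symm a)⟩ : Cfg E))) =
      fun q : (α → E) × (β → E) => g (Set.range q.1) (Set.range q.2) := by
    funext q
    show g (Set.range _) (Set.range _) = _
    rw [range_comp_equiv, range_comp_equiv]
  rw [← h3]
  exact h2

/-- one subset of the indices -/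
theorem lintegral_pred (ρ : Measure E) [IsFiniteMeasure ρ] {g : Set E → Set E → ℝ≥0∞}
    (hg : Measurable fun q : Cfg E × Cfg E => g (pt q.1) (pt q.2)) {k : ℕ} (p : Fin k → Prop)
    [DecidablePred p] {j l : ℕ} (hj : Fintype.card {i // p i} = j)
    (hl : Fintype.card {i // ¬ p i} = l) :
    ∫⁻ x, g (x '' {i | p i}) (x '' {i | ¬ p i}) ∂(Measure.pi fun _ : Fin k => ρ) =
      aa ρ g j l := by
  have h1 := measurePreserving_piEquivPiSubtypeProd (fun _ : Fin k => ρ) p
  have h2 := h1.lintegral_comp (meas_types hg (α := {i // p i}) (β := {i // ¬ p i}))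
  rw [lintegral_prod _ (meas_types hg).aemeasurable] at h2
  refine Eq.trans ?_ (h2.trans (aa_types ρ g hj hl))
  refine lintegral_congr fun x => ?_
  congr 1
  · rw [Set.image_eq_range]
    rfl
  · rw [Set.image_eq_range]
    rfl

theorem lintegral_subset (ρ : Measure E) [IsFiniteMeasure ρ] {g : Set E → Set E → ℝ≥0∞}
    (hg : Measurable fun q : Cfg E × Cfg E => g (pt q.1) (pt q.2)) {k : ℕ} (s : Finset (Fin k)) :
    ∫⁻ x, g (x '' {i | i ∈ s}) (x '' {i | i ∉ s}) ∂(Measure.pi fun _ : Fin k => ρ) =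
      aa ρ g s.card (k - s.card) := by
  refine lintegral_pred ρ hg (fun i => i ∈ s) ?_ ?_
  · rw [Fintype.card_subtype, Finset.filter_mem_eq_inter, Finset.univ_inter]
  · rw [Fintype.card_subtype_compl, Fintype.card_fin, Fintype.card_subtype,
      Finset.filter_mem_eq_inter, Finset.univ_inter]

omit [MeasurableSpace E] in
open Classical in
/-- subsets of the range of an injective tuple -/
theorem tsum_subsets {k : ℕ} (x : Fin k → E) (hx : Function.Injective x)
    (f : Set E → Set E → ℝ≥0∞) :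
    ∑' I : {I : Set E // I ⊆ Set.range x}, f I (Set.range x \ I) =
      ∑ s : Finset (Fin k), f (x '' {i | i ∈ s}) (x '' {i | i ∉ s}) := by
  have hsub : ∀ s : Finset (Fin k), x '' {i | i ∈ s} ⊆ Set.range x := fun s =>
    Set.image_subset_range _ _
  let e : Finset (Fin k) ≃ {I : Set E // I ⊆ Set.range x} :=
    { toFun := fun s => ⟨x '' {i | i ∈ s}, hsub s⟩
      invFun := fun I => Finset.univ.filter (fun i => x i ∈ I.1)
      left_inv := by
        intro s
        ext i
        simp [hx.eq_iff]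
      right_inv := by
        rintro ⟨I, hI⟩
        ext p
        simp only [Finset.mem_filter, Finset.mem_univ, true_and, Set.mem_image, Set.mem_ofPred_eq]
        constructor
        · rintro ⟨i, hi, rfl⟩
          exact hi
        · intro hp
          obtain ⟨i, rfl⟩ := hI hp
          exact ⟨i, hp, rfl⟩ }
  rw [← e.tsum_eq, tsum_fintype]
  refine Finset.sum_congr rfl fun s _ => ?_
  show f (x '' {i | i ∈ s}) (Set.range x \ x '' {i | i ∈ s}) = _
  congr 1
  ext p
  simp only [Set.mem_sdiff, Set.mem_range, Set.mem_image, Set.mem_ofPred_eq]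
  constructor
  · rintro ⟨⟨i, rfl⟩, h⟩
    exact ⟨i, fun hi => h ⟨i, hi, rfl⟩, rfl⟩
  · rintro ⟨i, hi, rfl⟩
    exact ⟨⟨i, rfl⟩, fun ⟨j, hj, hji⟩ => hi (hx hji ▸ hj)⟩

theorem wk_mul (ρ : Measure E) [IsFiniteMeasure ρ] (j l : ℕ) :
    wk ρ (j + l) * ((j + l).choose j : ℝ≥0∞) =
      ENNReal.ofReal (Real.exp (ρ univ).toReal) * (wk ρ j * wk ρ l) := by
  have hm : (0 : ℝ) < Real.exp (-(ρ univ).toReal) := Real.exp_pos _
  have hw : ∀ n : ℕ, wk ρ n =
      ENNReal.ofReal (Real.exp (-(ρ univ).toReal) / (n.factorial : ℝ)) := by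
    intro n
    unfold wk
    rw [ENNReal.ofReal_div_of_pos (by positivity), ENNReal.ofReal_natCast]
  rw [hw, hw, hw, ← ENNReal.ofReal_natCast, ← ENNReal.ofReal_mul (by positivity),
    ← ENNReal.ofReal_mul (by positivity), ← ENNReal.ofReal_mul (by positivity)]
  congr 1
  rw [Nat.cast_add_choose, Real.exp_neg]
  have h1 : ((j + l).factorial : ℝ) ≠ 0 := by positivity
  have h2 : (j.factorial : ℝ) ≠ 0 := by positivity
  have h3 : (l.factorial : ℝ) ≠ 0 := by positivity
  have h4 : Real.exp (ρ univ).toReal ≠ 0 := (Real.exp_pos _).ne'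
  field_simp

/-- rearrangement of a double series -/
theorem tsum_antidiagonal (b : ℕ → ℕ → ℝ≥0∞) :
    ∑' k : ℕ, ∑ j ∈ Finset.range (k + 1), b j (k - j) = ∑' j : ℕ, ∑' l : ℕ, b j l := by
  have h1 : ∀ k : ℕ, ∑ j ∈ Finset.range (k + 1), b j (k - j) =
      ∑' p : (Finset.HasAntidiagonal.antidiagonal k : Finset (ℕ × ℕ)), b p.1.1 p.1.2 := by
    intro k
    rw [← Finset.Nat.sum_antidiagonal_eq_sum_range_succ b k, tsum_fintype,
      ← Finset.sum_coe_sort]
  simp only [h1]
  rw [← ENNReal.tsum_prod, ← Finset.HasAntidiagonal.sigmaAntidiagonalEquivProd.tsum_eq,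
    ENNReal.tsum_sigma']
  rfl

end

/-- Module SUBS. -/
theorem subs : SubsStatement := by
  intro E _ _ ρ _ _ g hg
  have hk : ∀ k : ℕ, wk ρ k * ∫⁻ x, ∑' I : {I : Set E // I ⊆ pt (⟨k, x⟩ : Cfg E)},
      g I (pt ⟨k, x⟩ \ I) ∂(Measure.pi fun _ : Fin k => ρ) =
      ∑ j ∈ Finset.range (k + 1), ENNReal.ofReal (Real.exp (ρ univ).toReal) *
        (wk ρ j * (wk ρ (k - j) * aa ρ g j (k - j))) := by
    intro k
    have h1 : ∫⁻ x, ∑' I : {I : Set E // I ⊆ pt (⟨k, x⟩ : Cfg E)},
        g I (pt ⟨k, x⟩ \ I) ∂(Measure.pi fun _ : Fin k => ρ) =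
        ∫⁻ x, ∑ s : Finset (Fin k), g (x '' {i | i ∈ s}) (x '' {i | i ∉ s})
          ∂(Measure.pi fun _ : Fin k => ρ) := by
      refine lintegral_congr_ae ?_
      filter_upwards [ae_injective ρ k] with x hx
      exact tsum_subsets x hx g
    have h2 : ∀ s : Finset (Fin k), Measurable fun x : Fin k → E =>
        g (x '' {i | i ∈ s}) (x '' {i | i ∉ s}) := by
      intro s
      have h3 := measurePreserving_piEquivPiSubtypeProd (fun _ : Fin k => ρ) (fun i => i ∈ s)
      have h4 := (meas_types hg (α := {i : Fin k // i ∈ s}) (β := {i : Fin k // i ∉ s})).comp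
        h3.measurable
      have h6 : (fun x : Fin k → E => g (x '' {i | i ∈ s}) (x '' {i | i ∉ s})) =
        (fun q : ({i : Fin k // i ∈ s} → E) × ({i : Fin k // i ∉ s} → E) =>
          g (Set.range q.1) (Set.range q.2)) ∘
          (MeasurableEquiv.piEquivPiSubtypeProd (fun _ : Fin k => E) (fun i => i ∈ s)) := by
        funext x
        show _ = g (Set.range _) (Set.range _)
        congr 1
        · rw [Set.image_eq_range]
          rfl
        · rw [Set.image_eq_range]
          rfl
      rw [h6]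
      exact h4
    rw [h1, lintegral_finsetSum _ fun s _ => h2 s]
    simp only [lintegral_subset ρ hg]
    have h5 := Finset.sum_powerset_apply_card (fun n => aa ρ g n (k - n))
      (x := (Finset.univ : Finset (Fin k)))
    rw [Finset.powerset_univ, Finset.card_univ, Fintype.card_fin] at h5
    rw [h5, Finset.mul_sum]
    refine Finset.sum_congr rfl fun j hj => ?_
    have hjk : j ≤ k := Nat.lt_succ_iff.mp (Finset.mem_range.mp hj)
    obtain ⟨l, rfl⟩ := Nat.exists_eq_add_of_le hjk
    rw [Nat.add_sub_cancel_left, nsmul_eq_mul, ← mul_assoc, wk_mul]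
    ring
  rw [lintegral_PL]
  simp only [hk]
  rw [tsum_antidiagonal (fun j l => ENNReal.ofReal (Real.exp (ρ univ).toReal) *
        (wk ρ j * (wk ρ l * aa ρ g j l)))]
  simp only [ENNReal.tsum_mul_left]
  congr 1
  rw [lintegral_PL]
  refine tsum_congr fun j => ?_
  congr 1
  simp only [lintegral_PL]
  rw [lintegral_tsum]
  · refine tsum_congr fun l => ?_
    exact (lintegral_const_mul _ (meas_types hg (α := Fin j)
      (β := Fin l)).lintegral_prod_right').symm
  · intro l
    exact ((meas_types hg (α := Fin j) (β := Fin l)).lintegral_prod_right'.const_mul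
      _).aemeasurable

end Pool.Agent.Lib.MP_5349a4_pr.H38
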